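import Mathlib

/-! # Counting graphs by the traces of the neighbourhoods on a fixed set -/

set_option autoImplicit false

namespace Pool.Agent.N256.VZ

open Finset

variable {V : Type*} [Fintype V] [DecidableEq V]

noncomputable instance : Fintype (SimpleGraph V) := Fintype.ofFinite _

open Classical in
/-- the trace of the neighbourhood of `v` on `T` -/
noncomputable def tr (T : Finset V) (v : V) (G : SimpleGraph V) : Finset V :=
  T.filter fun b => G.Adj v b

omit [Fintype V] [DecidableEq V] in
lemma mem_tr (T : Finset V) (v : V) (G : SimpleGraph V) (b : V) :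
    b ∈ tr T v G ↔ b ∈ T ∧ G.Adj v b := by
  simp [tr]

/-- the star with centre `v` and leaves `B` -/
def star (v : V) (B : Finset V) : SimpleGraph V :=
  SimpleGraph.fromRel fun x y => x = v ∧ y ∈ B

omit [Fintype V] in
lemma star_adj (v : V) (B : Finset V) (x y : V) :
    (star v B).Adj x y ↔ x ≠ y ∧ ((x = v ∧ y ∈ B) ∨ (y = v ∧ x ∈ B)) := by
  simp [star, SimpleGraph.fromRel_adj]

omit [Fintype V] in
lemma sd_adj (G H : SimpleGraph V) (x y : V) :
    (symmDiff G H).Adj x y ↔ (G.Adj x y ∧ ¬ H.Adj x y) ∨ (H.Adj x y ∧ ¬ G.Adj x y) := by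
  simp [symmDiff_def]

omit [Fintype V] in
lemma tr_self (T : Finset V) (v : V) (hv : v ∉ T) (B : Finset V) (hB : B ⊆ T)
    (G : SimpleGraph V) : tr T v (symmDiff G (star v B)) = symmDiff (tr T v G) B := by
  ext b
  rw [mem_tr, sd_adj, star_adj, mem_symmDiff, mem_tr]
  by_cases hb : b ∈ T
  · have hne : v ≠ b := fun h => hv (h ▸ hb)
    have hne' : b ≠ v := fun h => hne h.symm
    simp only [hb, hne, hne', true_and, ne_eq, not_false_eq_true, false_and, or_false]
  · have : b ∉ B := fun h => hb (hB h)
    simp [hb, this]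

omit [Fintype V] in
lemma tr_other (T : Finset V) (v w : V) (hv : v ∉ T) (hw : w ≠ v) (B : Finset V)
    (G : SimpleGraph V) : tr T w (symmDiff G (star v B)) = tr T w G := by
  ext b
  rw [mem_tr, sd_adj, star_adj, mem_tr]
  by_cases hb : b ∈ T
  · have hne' : b ≠ v := fun h => hv (h ▸ hb)
    simp only [hb, hne', hw, false_and, or_false, and_false, not_false_eq_true, and_true]
  · simp [hb]

open Classical in
/-- the product formula -/
lemma count_tr (T : Finset V) (A : V → Finset (Finset V)) (hA : ∀ v, A v ⊆ T.powerset)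
    (W : Finset V) (hW : ∀ v ∈ W, v ∉ T) :
    (univ.filter fun G : SimpleGraph V => ∀ v ∈ W, tr T v G ∈ A v).card * (2 ^ T.card) ^ W.card =
      Fintype.card (SimpleGraph V) * ∏ v ∈ W, (A v).card := by
  induction W using Finset.induction_on with
  | empty => simp
  | insert w W hw ih =>
    have ih' := ih fun v hv => hW v (mem_insert_of_mem hv)
    have hwT : w ∉ T := hW w (mem_insert_self w W)
    rw [prod_insert hw, card_insert_of_notMem hw, pow_succ]
    have key : ((univ.filter fun G : SimpleGraph V => ∀ v ∈ insert w W, tr T v G ∈ A v) ×ˢ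
        T.powerset).card =
        ((univ.filter fun G : SimpleGraph V => ∀ v ∈ W, tr T v G ∈ A v) ×ˢ (A w)).card := by
      refine Finset.card_nbij'
        (fun p => (symmDiff p.1 (star w p.2), tr T w p.1))
        (fun p => (symmDiff p.1 (star w (symmDiff (tr T w p.1) p.2)), symmDiff (tr T w p.1) p.2))
        ?_ ?_ ?_ ?_
      · rintro ⟨G, B⟩ hp
        simp only [coe_product, Set.mem_prod, mem_coe, mem_filter, mem_univ, true_and,
          mem_powerset] at hp ⊢
        refine ⟨fun v hv => ?_, hp.1 w (mem_insert_self w W)⟩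
        have hne : v ≠ w := fun h => hw (h ▸ hv)
        rw [tr_other T w v hwT hne]
        exact hp.1 v (mem_insert_of_mem hv)
      · rintro ⟨G, B⟩ hp
        simp only [coe_product, Set.mem_prod, mem_coe, mem_filter, mem_univ, true_and,
          mem_powerset] at hp ⊢
        have hBT : B ⊆ T := mem_powerset.1 (hA w hp.2)
        have htT : tr T w G ⊆ T := fun b hb => ((mem_tr T w G b).1 hb).1
        have hsd : symmDiff (tr T w G) B ⊆ T := by
          intro b hb
          rw [mem_symmDiff] at hb
          rcases hb with h | h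
          · exact htT h.1
          · exact hBT h.1
        refine ⟨fun v hv => ?_, hsd⟩
        rw [mem_insert] at hv
        by_cases hvw : v = w
        · subst hvw
          rw [tr_self T v hwT _ hsd, symmDiff_symmDiff_cancel_left]
          exact hp.2
        · rw [tr_other T w v hwT hvw]
          exact hp.1 v (hv.resolve_left hvw)
      · rintro ⟨G, B⟩ hp
        simp only [coe_product, Set.mem_prod, mem_coe, mem_filter, mem_univ, true_and,
          mem_powerset] at hp ⊢
        rw [tr_self T w hwT _ hp.2]
        have h1 : symmDiff (symmDiff (tr T w G) B) (tr T w G) = B := by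
          rw [symmDiff_comm (tr T w G) B, symmDiff_symmDiff_cancel_right]
        rw [h1, symmDiff_symmDiff_cancel_right]
      · rintro ⟨G, B⟩ hp
        simp only [coe_product, Set.mem_prod, mem_coe, mem_filter, mem_univ, true_and] at hp ⊢
        have hBT : B ⊆ T := mem_powerset.1 (hA w hp.2)
        have htT : tr T w G ⊆ T := fun b hb => ((mem_tr T w G b).1 hb).1
        have hsd : symmDiff (tr T w G) B ⊆ T := by
          intro b hb
          rw [mem_symmDiff] at hb
          rcases hb with h | h
          · exact htT h.1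
          · exact hBT h.1
        rw [tr_self T w hwT _ hsd, symmDiff_symmDiff_cancel_left, symmDiff_symmDiff_cancel_right]
    rw [card_product, card_product, card_powerset] at key
    calc (univ.filter fun G : SimpleGraph V => ∀ v ∈ insert w W, tr T v G ∈ A v).card *
          ((2 ^ T.card) ^ W.card * 2 ^ T.card)
        = ((univ.filter fun G : SimpleGraph V => ∀ v ∈ insert w W, tr T v G ∈ A v).card *
            2 ^ T.card) * (2 ^ T.card) ^ W.card := by ring
      _ = ((univ.filter fun G : SimpleGraph V => ∀ v ∈ W, tr T v G ∈ A v).card *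
            (2 ^ T.card) ^ W.card) * (A w).card := by rw [key]; ring
      _ = _ := by rw [ih']; ring

/-- subsets of `T` which meet `P` -/
def A1 (T P : Finset V) : Finset (Finset V) := T.powerset.filter fun B => ¬ Disjoint B P

/-- subsets of `T` which meet `P` and `Q` -/
def A2 (T P Q : Finset V) : Finset (Finset V) :=
  T.powerset.filter fun B => ¬ (Disjoint B P ∨ Disjoint B Q)

omit [Fintype V] in
lemma card_disj (T P : Finset V) :
    (T.powerset.filter fun B => Disjoint B P).card = 2 ^ (T \ P).card := by
  rw [← card_powerset]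
  congr 1
  ext B
  rw [mem_filter, mem_powerset, mem_powerset, subset_sdiff]

omit [Fintype V] in
lemma card_A1 (T P : Finset V) (hP : P ⊆ T) :
    ((A1 T P).card : ℝ) = 2 ^ T.card * (1 - (1 / 2) ^ P.card) := by
  have h := Finset.card_filter_add_card_filter_not (s := T.powerset) (fun B => Disjoint B P)
  rw [card_disj, card_powerset, card_sdiff_of_subset hP] at h
  have h2 : ((2 : ℝ) ^ (T.card - P.card) : ℝ) + ((A1 T P).card : ℝ) = 2 ^ T.card := by
    have : (2 ^ (T.card - P.card) + (A1 T P).card : ℕ) = 2 ^ T.card := h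
    exact_mod_cast this
  have h3 : (2 : ℝ) ^ (T.card - P.card) = 2 ^ T.card * (1 / 2) ^ P.card := by
    rw [pow_sub₀ _ two_ne_zero (card_le_card hP)]
    simp
  rw [h3] at h2
  linarith

omit [Fintype V] in
lemma card_A2 (P Q : Finset V) (k : ℕ) (hP : P.card = k) (hQ : Q.card = k) (hPQ : P ≠ Q) :
    ((A2 (P ∪ Q) P Q).card : ℝ) ≤ 2 ^ (P ∪ Q).card * (1 - 3 / 2 * (1 / 2) ^ k) := by
  set T := P ∪ Q with hT
  have hPT : P ⊆ T := subset_union_left
  have hQT : Q ⊆ T := subset_union_right
  have hTk : k + 1 ≤ T.card := by
    by_contra hc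
    have h1 : T.card ≤ k := by omega
    have h2 : P = T := eq_of_subset_of_card_le hPT (by omega)
    have h3 : Q = T := eq_of_subset_of_card_le hQT (by omega)
    exact hPQ (h2.trans h3.symm)
  have h := Finset.card_filter_add_card_filter_not (s := T.powerset)
    (fun B => Disjoint B P ∨ Disjoint B Q)
  have h1 : (T.powerset.filter fun B => Disjoint B P ∨ Disjoint B Q) =
      (T.powerset.filter fun B => Disjoint B P) ∪ (T.powerset.filter fun B => Disjoint B Q) := by
    rw [filter_or]
  have h2 : (T.powerset.filter fun B => Disjoint B P) ∩ (T.powerset.filter fun B => Disjoint B Q) =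
      {∅} := by
    ext B
    simp only [mem_inter, mem_filter, mem_powerset, mem_singleton]
    constructor
    · rintro ⟨⟨hB, h1⟩, _, h2⟩
      have : Disjoint B T := by rw [hT, disjoint_union_right]; exact ⟨h1, h2⟩
      exact disjoint_self_iff_empty B |>.1 (this.mono_right hB)
    · rintro rfl
      simp
  have h3 := Finset.card_union_add_card_inter (T.powerset.filter fun B => Disjoint B P)
    (T.powerset.filter fun B => Disjoint B Q)
  rw [h2, card_singleton, card_disj, card_disj, card_sdiff_of_subset hPT,
    card_sdiff_of_subset hQT, hP, hQ, ← h1] at h3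
  rw [card_powerset] at h
  have h4 : ((T.powerset.filter fun B => Disjoint B P ∨ Disjoint B Q).card : ℝ) + 1 =
      2 ^ (T.card - k) + 2 ^ (T.card - k) := by exact_mod_cast h3
  have h5 : ((T.powerset.filter fun B => Disjoint B P ∨ Disjoint B Q).card : ℝ) +
      ((A2 T P Q).card : ℝ) = 2 ^ T.card := by
    have : ((T.powerset.filter fun B => Disjoint B P ∨ Disjoint B Q).card + (A2 T P Q).card : ℕ) =
      2 ^ T.card := h
    exact_mod_cast this
  have h6 : (2 : ℝ) ^ (T.card - k) = 2 ^ T.card * (1 / 2) ^ k := by
    rw [pow_sub₀ _ two_ne_zero (by omega)]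
    simp
  have h7 : (1 : ℝ) ≤ 1 / 2 * 2 ^ (T.card - k) := by
    have : (2 : ℝ) ^ 1 ≤ 2 ^ (T.card - k) := pow_le_pow_right₀ (by norm_num) (by omega)
    linarith
  rw [h6] at h4 h7
  nlinarith

end Pool.Agent.N256.VZ
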