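import Pool.Agent.N256.VZ.LP
import Pool.Agent.N256.VZ.Trace

/-! # Almost all graphs with domination number `k`

In almost all graphs with a dominating set `P` of size `k` every other set of `k` vertices leaves many
vertices undominated. -/

set_option autoImplicit false

namespace Pool.Agent.N256.VZ

open Finset

/-- `G` has a dominating set `P` of size `k`, and every other set of `k` vertices leaves at least `R`
vertices undominated -/
def Good {V : Type*} [Fintype V] (k R : ℕ) (G : SimpleGraph V) : Prop :=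
  ∃ P : Finset V, P.card = k ∧ Dom G P ∧ ∀ T : Finset V, T.card = k → T ≠ P → R ≤ (und G T).card

open Classical in
lemma lower (n k : ℕ) (P : Finset (Fin n)) (hP : P.card = k) :
    (Fintype.card (SimpleGraph (Fin n)) : ℝ) * (1 - (1 / 2) ^ k) ^ (n - k) ≤
      ((univ.filter fun G : SimpleGraph (Fin n) => Dom G P).card : ℝ) := by
  have h1 := count_tr P (fun _ => A1 P P) (fun _ => filter_subset _ _) (univ \ P)
    (fun v hv => (mem_sdiff.1 hv).2)
  have h2 : (univ \ P).card = n - k := by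
    rw [card_sdiff_of_subset (subset_univ _), card_univ, Fintype.card_fin, hP]
  rw [prod_const, h2, hP] at h1
  have h3 : (((univ.filter fun G : SimpleGraph (Fin n) =>
      ∀ v ∈ univ \ P, tr P v G ∈ A1 P P).card : ℕ) : ℝ) * (2 ^ k) ^ (n - k) =
      Fintype.card (SimpleGraph (Fin n)) * ((A1 P P).card : ℝ) ^ (n - k) := by
    have h1' : (univ.filter fun G : SimpleGraph (Fin n) =>
      ∀ v ∈ univ \ P, tr P v G ∈ A1 P P).card * (2 ^ k) ^ (n - k) =
      Fintype.card (SimpleGraph (Fin n)) * ((A1 P P).card) ^ (n - k) := by convert h1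
    exact_mod_cast h1'
  rw [card_A1 P P (le_refl _), hP, mul_pow, ← mul_assoc, mul_right_comm] at h3
  have h4 : (0 : ℝ) < (2 ^ k) ^ (n - k) := by positivity
  have h5 : (((univ.filter fun G : SimpleGraph (Fin n) =>
      ∀ v ∈ univ \ P, tr P v G ∈ A1 P P).card : ℕ) : ℝ) =
      Fintype.card (SimpleGraph (Fin n)) * (1 - (1 / 2) ^ k) ^ (n - k) :=
    mul_right_cancel₀ h4.ne' h3
  rw [← h5]
  have h6 : (univ.filter fun G : SimpleGraph (Fin n) => ∀ v ∈ univ \ P, tr P v G ∈ A1 P P) ⊆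
      univ.filter fun G : SimpleGraph (Fin n) => Dom G P := by
    intro G hG
    rw [mem_filter] at hG ⊢
    refine ⟨mem_univ _, fun v => ?_⟩
    by_cases hv : v ∈ P
    · exact Or.inl hv
    · right
      have := hG.2 v (mem_sdiff.2 ⟨mem_univ _, hv⟩)
      rw [A1, mem_filter, not_disjoint_iff] at this
      obtain ⟨_, u, hu, hu'⟩ := this
      exact ⟨u, hu', ((mem_tr P v G u).1 hu).2.symm⟩
  exact_mod_cast card_le_card h6

open Classical in
lemma upper (n k R : ℕ) (P Q X : Finset (Fin n)) (hP : P.card = k) (hQ : Q.card = k) (hPQ : P ≠ Q)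
    (hX : X.card = R) (hk : 1 ≤ k) :
    ((univ.filter fun G : SimpleGraph (Fin n) =>
      ∀ v ∈ univ \ (P ∪ Q ∪ X), tr (P ∪ Q) v G ∈ A2 (P ∪ Q) P Q).card : ℝ) ≤
      Fintype.card (SimpleGraph (Fin n)) * (1 - 3 / 2 * (1 / 2) ^ k) ^ (n - 2 * k - R) := by
  have h1 := count_tr (P ∪ Q) (fun _ => A2 (P ∪ Q) P Q) (fun _ => filter_subset _ _)
    (univ \ (P ∪ Q ∪ X)) (fun v hv h => (mem_sdiff.1 hv).2 (mem_union_left _ h))
  rw [prod_const] at h1
  set M := (univ \ (P ∪ Q ∪ X)).card with hM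
  have hMge : n - 2 * k - R ≤ M := by
    rw [hM, card_sdiff_of_subset (subset_univ _), card_univ, Fintype.card_fin]
    have := card_union_le (P ∪ Q) X
    have := card_union_le P Q
    omega
  have h3 : (((univ.filter fun G : SimpleGraph (Fin n) =>
      ∀ v ∈ univ \ (P ∪ Q ∪ X), tr (P ∪ Q) v G ∈ A2 (P ∪ Q) P Q).card : ℕ) : ℝ) *
        (2 ^ (P ∪ Q).card) ^ M =
      Fintype.card (SimpleGraph (Fin n)) * ((A2 (P ∪ Q) P Q).card : ℝ) ^ M := by
    have h1' : (univ.filter fun G : SimpleGraph (Fin n) =>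
      ∀ v ∈ univ \ (P ∪ Q ∪ X), tr (P ∪ Q) v G ∈ A2 (P ∪ Q) P Q).card *
        (2 ^ (P ∪ Q).card) ^ M =
      Fintype.card (SimpleGraph (Fin n)) * ((A2 (P ∪ Q) P Q).card) ^ M := by convert h1
    exact_mod_cast h1'
  have h4 : ((A2 (P ∪ Q) P Q).card : ℝ) ^ M ≤
      (2 ^ (P ∪ Q).card * (1 - 3 / 2 * (1 / 2) ^ k)) ^ M :=
    pow_le_pow_left₀ (Nat.cast_nonneg _) (card_A2 P Q k hP hQ hPQ) M
  have ha : ((1 : ℝ) / 2) ^ k ≤ 1 / 2 := by
    calc ((1 : ℝ) / 2) ^ k ≤ (1 / 2) ^ 1 := pow_le_pow_of_le_one (by norm_num) (by norm_num) hk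
      _ = 1 / 2 := by norm_num
  have ha0 : (0 : ℝ) < (1 / 2) ^ k := by positivity
  have hb0 : (0 : ℝ) ≤ 1 - 3 / 2 * (1 / 2) ^ k := by linarith
  have hb1 : 1 - 3 / 2 * (1 / 2) ^ k ≤ (1 : ℝ) := by linarith
  have h5 : (0 : ℝ) < (2 ^ (P ∪ Q).card) ^ M := by positivity
  have h6 : (((univ.filter fun G : SimpleGraph (Fin n) =>
      ∀ v ∈ univ \ (P ∪ Q ∪ X), tr (P ∪ Q) v G ∈ A2 (P ∪ Q) P Q).card : ℕ) : ℝ) ≤
      Fintype.card (SimpleGraph (Fin n)) * (1 - 3 / 2 * (1 / 2) ^ k) ^ M := by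
    refine le_of_mul_le_mul_right ?_ h5
    rw [h3]
    calc (Fintype.card (SimpleGraph (Fin n)) : ℝ) * ((A2 (P ∪ Q) P Q).card : ℝ) ^ M
        ≤ Fintype.card (SimpleGraph (Fin n)) *
          (2 ^ (P ∪ Q).card * (1 - 3 / 2 * (1 / 2) ^ k)) ^ M :=
          mul_le_mul_of_nonneg_left h4 (Nat.cast_nonneg _)
      _ = _ := by rw [mul_pow]; ring
  refine h6.trans (mul_le_mul_of_nonneg_left ?_ (Nat.cast_nonneg _))
  exact pow_le_pow_of_le_one hb0 hb1 hMge

lemma numeric (n k R : ℕ) (hk : 1 ≤ k) (hn : 2 ≤ n) (hR : 2 * k + R ≤ n)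
    (hcond : (3 * (k : ℝ) + 2 * R + 1) * Real.log n ≤ (1 / 2) ^ k * ((n : ℝ) - 2 * k - R) / 2) :
    (n : ℝ) * ((n : ℝ) ^ k * (n : ℝ) ^ k * (n : ℝ) ^ R) *
      (1 - 3 / 2 * (1 / 2) ^ k) ^ (n - 2 * k - R) ≤ (1 - (1 / 2) ^ k) ^ (n - k) := by
  set a : ℝ := (1 / 2) ^ k with ha'
  have ha : a ≤ 1 / 2 := by
    calc ((1 : ℝ) / 2) ^ k ≤ (1 / 2) ^ 1 := pow_le_pow_of_le_one (by norm_num) (by norm_num) hk
      _ = 1 / 2 := by norm_num
  have ha0 : (0 : ℝ) < a := by positivity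
  set M := n - 2 * k - R with hM
  have hMR : (M : ℝ) = (n : ℝ) - 2 * k - R := by
    rw [hM, Nat.cast_sub (by omega), Nat.cast_sub (by omega)]
    push_cast; ring
  have hnR : (2 : ℝ) ≤ n := by exact_mod_cast hn
  have hnpos : (0 : ℝ) < n := by linarith
  have h1 : (1 - 3 / 2 * a) ^ M ≤ (1 - a) ^ M * (1 - a / 2) ^ M := by
    rw [← mul_pow]
    apply pow_le_pow_left₀ (by linarith)
    nlinarith
  have h2 : (1 - a / 2) ^ M ≤ Real.exp (-(a / 2) * M) := by
    have : 1 - a / 2 ≤ Real.exp (-(a / 2)) := by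
      have := Real.add_one_le_exp (-(a / 2)); linarith
    calc (1 - a / 2) ^ M ≤ (Real.exp (-(a / 2))) ^ M := pow_le_pow_left₀ (by linarith) this M
      _ = _ := by rw [← Real.exp_nat_mul]; ring_nf
  have h3 : (1 - a) ^ M ≤ (n : ℝ) ^ (k + R) * (1 - a) ^ (n - k) := by
    have hsplit : n - k = M + (k + R) := by omega
    rw [hsplit, pow_add]
    have h4 : (1 : ℝ) ≤ (n : ℝ) ^ (k + R) * (1 - a) ^ (k + R) := by
      rw [← mul_pow]
      apply one_le_pow₀
      nlinarith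
    have h5 : 0 ≤ (1 - a) ^ M := pow_nonneg (by linarith) _
    calc (1 - a) ^ M = (1 - a) ^ M * 1 := by ring
      _ ≤ (1 - a) ^ M * ((n : ℝ) ^ (k + R) * (1 - a) ^ (k + R)) :=
          mul_le_mul_of_nonneg_left h4 h5
      _ = _ := by ring
  have h6 : (n : ℝ) * ((n : ℝ) ^ k * (n : ℝ) ^ k * (n : ℝ) ^ R) * (n : ℝ) ^ (k + R) =
      Real.exp ((3 * (k : ℝ) + 2 * R + 1) * Real.log n) := by
    have : (n : ℝ) * ((n : ℝ) ^ k * (n : ℝ) ^ k * (n : ℝ) ^ R) * (n : ℝ) ^ (k + R) =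
        (n : ℝ) ^ (3 * k + 2 * R + 1) := by ring
    rw [this, ← Real.exp_log (pow_pos hnpos _), Real.log_pow]
    congr 1
    push_cast; ring
  have h7 : 0 ≤ (1 - a) ^ (n - k) := pow_nonneg (by linarith) _
  have h8 : 0 ≤ (1 - a / 2) ^ M := pow_nonneg (by linarith) _
  have h9 : 0 ≤ (n : ℝ) * ((n : ℝ) ^ k * (n : ℝ) ^ k * (n : ℝ) ^ R) := by positivity
  calc (n : ℝ) * ((n : ℝ) ^ k * (n : ℝ) ^ k * (n : ℝ) ^ R) * (1 - 3 / 2 * a) ^ M
      ≤ (n : ℝ) * ((n : ℝ) ^ k * (n : ℝ) ^ k * (n : ℝ) ^ R) * ((1 - a) ^ M * (1 - a / 2) ^ M) :=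
        mul_le_mul_of_nonneg_left h1 h9
    _ ≤ (n : ℝ) * ((n : ℝ) ^ k * (n : ℝ) ^ k * (n : ℝ) ^ R) *
          (((n : ℝ) ^ (k + R) * (1 - a) ^ (n - k)) * Real.exp (-(a / 2) * M)) := by
        apply mul_le_mul_of_nonneg_left _ h9
        exact mul_le_mul h3 h2 h8 (by positivity)
    _ = (n : ℝ) * ((n : ℝ) ^ k * (n : ℝ) ^ k * (n : ℝ) ^ R) * (n : ℝ) ^ (k + R) *
          Real.exp (-(a / 2) * M) * (1 - a) ^ (n - k) := by ring
    _ = Real.exp ((3 * (k : ℝ) + 2 * R + 1) * Real.log n + -(a / 2) * M) * (1 - a) ^ (n - k) := by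
        rw [h6, Real.exp_add]
    _ ≤ 1 * (1 - a) ^ (n - k) := by
        apply mul_le_mul_of_nonneg_right _ h7
        rw [Real.exp_le_one_iff, hMR]
        linarith
    _ = _ := one_mul _

open Classical in
/-- **Counting.** -/
theorem bad_le (n k R : ℕ) (hk : 1 ≤ k) (hn : 2 ≤ n) (hR : 2 * k + R ≤ n)
    (hcond : (3 * (k : ℝ) + 2 * R + 1) * Real.log n ≤ (1 / 2) ^ k * ((n : ℝ) - 2 * k - R) / 2) :
    (n : ℝ) * ((univ.filter fun G : SimpleGraph (Fin n) =>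
      (∃ P : Finset (Fin n), P.card = k ∧ Dom G P) ∧ ¬ Good k R G).card : ℝ) ≤
      ((univ.filter fun G : SimpleGraph (Fin n) =>
        ∃ P : Finset (Fin n), P.card = k ∧ Dom G P).card : ℝ) := by
  set N : ℝ := (Fintype.card (SimpleGraph (Fin n)) : ℝ) with hN
  have hN0 : 0 ≤ N := Nat.cast_nonneg _
  set I : Finset (Finset (Fin n) × Finset (Fin n) × Finset (Fin n)) :=
    ((powersetCard k univ) ×ˢ (powersetCard k univ) ×ˢ (powersetCard R univ)).filter
      fun x => x.1 ≠ x.2.1 with hI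
  have hsub : (univ.filter fun G : SimpleGraph (Fin n) =>
      (∃ P : Finset (Fin n), P.card = k ∧ Dom G P) ∧ ¬ Good k R G) ⊆
      I.biUnion fun x => univ.filter fun G : SimpleGraph (Fin n) =>
        ∀ v ∈ univ \ (x.1 ∪ x.2.1 ∪ x.2.2), tr (x.1 ∪ x.2.1) v G ∈ A2 (x.1 ∪ x.2.1) x.1 x.2.1 := by
    intro G hG
    rw [mem_filter] at hG
    obtain ⟨_, ⟨P, hP, hdom⟩, hbad⟩ := hG
    have h1 : ∃ T : Finset (Fin n), T.card = k ∧ T ≠ P ∧ (und G T).card < R := by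
      by_contra hc
      refine hbad ⟨P, hP, hdom, fun T hT hTP => ?_⟩
      by_contra hlt
      exact hc ⟨T, hT, hTP, by omega⟩
    obtain ⟨T, hT, hTP, hlt⟩ := h1
    obtain ⟨X, hX1, -, hX2⟩ := Finset.exists_subsuperset_card_eq (subset_univ (und G T)) hlt.le
      (by rw [card_univ, Fintype.card_fin]; omega)
    rw [mem_biUnion]
    refine ⟨(P, T, X), ?_, ?_⟩
    · rw [hI, mem_filter]
      simp only [mem_product, mem_powersetCard, subset_univ, true_and]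
      exact ⟨⟨hP, hT, hX2⟩, fun h => hTP h.symm⟩
    · rw [mem_filter]
      refine ⟨mem_univ _, fun v hv => ?_⟩
      simp only [mem_sdiff, mem_univ, true_and, mem_union, not_or] at hv
      obtain ⟨⟨hvP, hvT⟩, hvX⟩ := hv
      rw [A2, mem_filter, mem_powerset, not_or, not_disjoint_iff, not_disjoint_iff]
      refine ⟨fun b hb => ((mem_tr _ v G b).1 hb).1, ?_, ?_⟩
      · rcases hdom v with h | ⟨u, hu, huv⟩
        · exact absurd h hvP
        · exact ⟨u, (mem_tr _ v G u).2 ⟨mem_union_left _ hu, huv.symm⟩, hu⟩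
      · have h2 : ¬ v ∈ und G T := fun h => hvX (hX1 h)
        rw [mem_und, not_not] at h2
        rcases h2 with h | ⟨u, hu, huv⟩
        · exact absurd h hvT
        · exact ⟨u, (mem_tr _ v G u).2 ⟨mem_union_right _ hu, huv.symm⟩, hu⟩
  have hIcard : (I.card : ℝ) ≤ (n : ℝ) ^ k * (n : ℝ) ^ k * (n : ℝ) ^ R := by
    have h1 : I.card ≤ n.choose k * (n.choose k * n.choose R) := by
      refine (card_filter_le _ _).trans ?_
      rw [card_product, card_product, card_powersetCard, card_powersetCard, card_univ,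
        Fintype.card_fin]
    have h2 : I.card ≤ n ^ k * (n ^ k * n ^ R) := by
      refine h1.trans (Nat.mul_le_mul (Nat.choose_le_pow n k) (Nat.mul_le_mul (Nat.choose_le_pow n k)
        (Nat.choose_le_pow n R)))
    have h3 : (I.card : ℝ) ≤ ((n ^ k * (n ^ k * n ^ R) : ℕ) : ℝ) := by exact_mod_cast h2
    push_cast at h3
    linarith
  have hbound : ((univ.filter fun G : SimpleGraph (Fin n) =>
      (∃ P : Finset (Fin n), P.card = k ∧ Dom G P) ∧ ¬ Good k R G).card : ℝ) ≤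
      I.card * (N * (1 - 3 / 2 * (1 / 2) ^ k) ^ (n - 2 * k - R)) := by
    have h1 := (card_le_card hsub).trans card_biUnion_le
    calc ((univ.filter fun G : SimpleGraph (Fin n) =>
        (∃ P : Finset (Fin n), P.card = k ∧ Dom G P) ∧ ¬ Good k R G).card : ℝ)
        ≤ ((∑ x ∈ I, (univ.filter fun G : SimpleGraph (Fin n) =>
          ∀ v ∈ univ \ (x.1 ∪ x.2.1 ∪ x.2.2), tr (x.1 ∪ x.2.1) v G ∈
            A2 (x.1 ∪ x.2.1) x.1 x.2.1).card : ℕ) : ℝ) := by exact_mod_cast h1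
      _ = ∑ x ∈ I, ((univ.filter fun G : SimpleGraph (Fin n) =>
          ∀ v ∈ univ \ (x.1 ∪ x.2.1 ∪ x.2.2), tr (x.1 ∪ x.2.1) v G ∈
            A2 (x.1 ∪ x.2.1) x.1 x.2.1).card : ℝ) := by push_cast; rfl
      _ ≤ ∑ _x ∈ I, N * (1 - 3 / 2 * (1 / 2) ^ k) ^ (n - 2 * k - R) := by
          refine sum_le_sum fun x hx => ?_
          rw [hI, mem_filter] at hx
          simp only [mem_product, mem_powersetCard, subset_univ, true_and] at hx
          exact upper n k R x.1 x.2.1 x.2.2 hx.1.1 hx.1.2.1 hx.2 hx.1.2.2 hk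
      _ = _ := by rw [sum_const, nsmul_eq_mul]
  obtain ⟨P0, hP0⟩ : ∃ P0 : Finset (Fin n), P0.card = k := by
    obtain ⟨P, _, hP⟩ := Finset.exists_subset_card_eq (s := (univ : Finset (Fin n))) (n := k)
      (by rw [card_univ, Fintype.card_fin]; omega)
    exact ⟨P, hP⟩
  have hlow := lower n k P0 hP0
  have hlow2 : ((univ.filter fun G : SimpleGraph (Fin n) => Dom G P0).card : ℝ) ≤
      ((univ.filter fun G : SimpleGraph (Fin n) =>
        ∃ P : Finset (Fin n), P.card = k ∧ Dom G P).card : ℝ) := by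
    have : (univ.filter fun G : SimpleGraph (Fin n) => Dom G P0) ⊆
        univ.filter fun G : SimpleGraph (Fin n) => ∃ P : Finset (Fin n), P.card = k ∧ Dom G P := by
      intro G hG
      rw [mem_filter] at hG ⊢
      exact ⟨hG.1, P0, hP0, hG.2⟩
    exact_mod_cast card_le_card this
  have ha : ((1 : ℝ) / 2) ^ k ≤ 1 / 2 := by
    calc ((1 : ℝ) / 2) ^ k ≤ (1 / 2) ^ 1 := pow_le_pow_of_le_one (by norm_num) (by norm_num) hk
      _ = 1 / 2 := by norm_num
  have hb0 : (0 : ℝ) ≤ (1 - 3 / 2 * (1 / 2) ^ k) ^ (n - 2 * k - R) := by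
    apply pow_nonneg; linarith
  have hnum := numeric n k R hk hn hR hcond
  calc (n : ℝ) * ((univ.filter fun G : SimpleGraph (Fin n) =>
      (∃ P : Finset (Fin n), P.card = k ∧ Dom G P) ∧ ¬ Good k R G).card : ℝ)
      ≤ n * (I.card * (N * (1 - 3 / 2 * (1 / 2) ^ k) ^ (n - 2 * k - R))) :=
        mul_le_mul_of_nonneg_left hbound (Nat.cast_nonneg _)
    _ ≤ n * (((n : ℝ) ^ k * (n : ℝ) ^ k * (n : ℝ) ^ R) *
          (N * (1 - 3 / 2 * (1 / 2) ^ k) ^ (n - 2 * k - R))) := by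
        apply mul_le_mul_of_nonneg_left _ (Nat.cast_nonneg _)
        apply mul_le_mul_of_nonneg_right hIcard
        exact mul_nonneg hN0 hb0
    _ = N * ((n : ℝ) * ((n : ℝ) ^ k * (n : ℝ) ^ k * (n : ℝ) ^ R) *
          (1 - 3 / 2 * (1 / 2) ^ k) ^ (n - 2 * k - R)) := by ring
    _ ≤ N * (1 - (1 / 2) ^ k) ^ (n - k) := mul_le_mul_of_nonneg_left hnum hN0
    _ ≤ _ := hlow
    _ ≤ _ := hlow2

end Pool.Agent.N256.VZ
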