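import Pool.Agent.N256.VZ.Count

set_option autoImplicit false

namespace Pool.Agent.N256.VZ

open Finset

section basic

variable {V : Type*}

lemma domNum_le (G : SimpleGraph V) (D : Finset V) (h : Dom G D) : domNum G ≤ D.card :=
  Nat.sInf_le ⟨D, rfl, h⟩

lemma exists_domNum [Finite V] (G : SimpleGraph V) : ∃ D : Finset V, D.card = domNum G ∧ Dom G D := by
  have := Fintype.ofFinite V
  have hne : {k : ℕ | ∃ D : Finset V, D.card = k ∧ Dom G D}.Nonempty :=
    ⟨_, univ, rfl, fun v => Or.inl (mem_univ v)⟩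
  exact Nat.sInf_mem hne

lemma dom_mono (G : SimpleGraph V) (D E : Finset V) (h : D ⊆ E) (hD : Dom G D) : Dom G E := by
  intro v
  rcases hD v with h1 | ⟨u, hu, huv⟩
  · exact Or.inl (h h1)
  · exact Or.inr ⟨u, h hu, huv⟩

variable [Fintype V]

lemma und_mono (G : SimpleGraph V) (D E : Finset V) (h : D ⊆ E) : und G E ⊆ und G D := by
  intro v hv
  rw [mem_und] at hv ⊢
  intro h1
  apply hv
  rcases h1 with h1 | ⟨u, hu, huv⟩
  · exact Or.inl (h h1)
  · exact Or.inr ⟨u, h hu, huv⟩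

lemma und_empty_of_dom (G : SimpleGraph V) (D : Finset V) (h : Dom G D) : und G D = ∅ := by
  rw [eq_empty_iff_forall_notMem]
  intro v hv
  rw [mem_und] at hv
  exact hv (h v)

lemma good_small {k R : ℕ} {G : SimpleGraph V} (h : ∃ P : Finset V, P.card = k ∧
    ∀ T : Finset V, T.card = k → T ≠ P → R ≤ (und G T).card) (hV : k < Fintype.card V)
    (T : Finset V) (hT : T.card < k) : R ≤ (und G T).card := by
  classical
  obtain ⟨P, hP, hP2⟩ := h
  obtain ⟨x, hx⟩ : ∃ x, x ∉ P := by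
    by_contra hc
    push Not at hc
    have : P = univ := eq_univ_iff_forall.2 hc
    rw [this, card_univ] at hP
    omega
  have h1 : (insert x T).card ≤ k := (card_insert_le _ _).trans (by omega)
  obtain ⟨E, hE1, -, hE2⟩ := Finset.exists_subsuperset_card_eq (subset_univ (insert x T)) h1
    (by rw [card_univ]; omega)
  have hEP : E ≠ P := fun h => hx (h ▸ hE1 (mem_insert_self x T))
  refine (hP2 E hE2 hEP).trans (card_le_card ?_)
  exact und_mono G T E ((subset_insert x T).trans hE1)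

lemma good_domNum {k R : ℕ} {G : SimpleGraph V} (h : Good k R G) (hR : 1 ≤ R)
    (hV : k < Fintype.card V) : domNum G = k := by
  obtain ⟨P, hP, hdom, hP2⟩ := h
  apply le_antisymm
  · exact (domNum_le G P hdom).trans hP.le
  · by_contra hc
    push Not at hc
    obtain ⟨D, hD, hD2⟩ := exists_domNum G
    have h1 := good_small ⟨P, hP, hP2⟩ hV D (by omega)
    rw [und_empty_of_dom G D hD2, card_empty] at h1
    omega

lemma domNum_le_iff (G : SimpleGraph V) (k : ℕ) (hV : k ≤ Fintype.card V) :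
    domNum G ≤ k ↔ ∃ P : Finset V, P.card = k ∧ Dom G P := by
  constructor
  · intro h
    obtain ⟨D, hD, hD2⟩ := exists_domNum G
    obtain ⟨E, hE1, -, hE2⟩ := Finset.exists_subsuperset_card_eq (subset_univ D) (by omega : D.card ≤ k)
      (by rw [card_univ]; omega)
    exact ⟨E, hE2, dom_mono G D E hE1 hD2⟩
  · rintro ⟨P, hP, h⟩
    exact (domNum_le G P h).trans hP.le

end basic

/-- the numerical condition on the density -/
lemma rho_small (k r : ℕ) (hk : 1 ≤ k) (c b : ℝ) (hr : 2 * (k : ℝ) * c ≤ r)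
    (hb : b ≤ Real.exp c) :
    b * ((((2 * k : ℕ) : ℝ) - 1) / ((2 * k : ℕ) : ℝ)) ^ r ≤ 1 := by
  obtain ⟨-, h0, h1⟩ := num_delta k hk c r hr
  have h2 : 0 ≤ ((((2 * k : ℕ) : ℝ) - 1) / ((2 * k : ℕ) : ℝ)) ^ r := pow_nonneg h0 r
  calc b * ((((2 * k : ℕ) : ℝ) - 1) / ((2 * k : ℕ) : ℝ)) ^ r
      ≤ Real.exp c * ((((2 * k : ℕ) : ℝ) - 1) / ((2 * k : ℕ) : ℝ)) ^ r :=
        mul_le_mul_of_nonneg_right hb h2
    _ ≤ Real.exp c * Real.exp (-c) := mul_le_mul_of_nonneg_left h1 (Real.exp_nonneg _)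
    _ = 1 := by rw [← Real.exp_add]; simp

/-- `S` is attachable in `G`: every set which dominates all the vertices of `G □ H` outside
`S × V(H)` has at least `γ(G) γ(H)` elements. -/
def Attachable {V : Type} (G : SimpleGraph V) (S : Finset V) : Prop :=
  ∀ (W : Type) [Finite W] (H : SimpleGraph W) (D : Finset (V × W)),
    (∀ x : V × W, x.1 ∉ S → x ∈ D ∨ ∃ y ∈ D, (G.boxProd H).Adj y x) →
      domNum G * domNum H ≤ D.card

lemma good_attach {V : Type} [Fintype V] {G : SimpleGraph V} {k m : ℕ} (hk : 1 ≤ k)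
    (h : Good k (m + 4 * k ^ 2) G) (hV : k < Fintype.card V) (S : Finset V) (hS : S.card ≤ m) :
    Attachable G S := by
  classical
  intro W _ H D hD
  have := Fintype.ofFinite W
  have hR : 1 ≤ m + 4 * k ^ 2 := by nlinarith
  rw [good_domNum h hR hV]
  have hk' : (1 : ℝ) ≤ k := by exact_mod_cast hk
  refine attach G H S k (4 * k ^ 2) hk ?_ ?_ (domNum H) (fun E hE => domNum_le H E hE) D hD
  · refine rho_small k (4 * k ^ 2) hk (2 * k) (4 * k) ?_ ?_
    · push_cast; nlinarith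
    · have := Real.quadratic_le_exp_of_nonneg (x := 2 * (k : ℝ)) (by positivity)
      nlinarith [sq_nonneg ((k : ℝ) - 1)]
  · intro T hT
    obtain ⟨P, hP, hdom, hP2⟩ := h
    have h1 := good_small ⟨P, hP, hP2⟩ hV T hT
    refine ⟨und G T \ S, ?_, sdiff_subset, sdiff_disjoint⟩
    have := le_card_sdiff S (und G T)
    omega

/-- sizes -/
lemma sizes (n k _m R : ℕ) (hk : 1 ≤ k) (hn : 2 ≤ n) (B : ℝ) (hB1 : (3 * (k : ℝ) + 2 * R + 1) ≤ 22 * B)
    (hB2 : 2 * (k : ℝ) + R ≤ 11 * B) (hB0 : 0 ≤ B)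
    (h : 64 * 2 ^ k * B * Real.log n ≤ n) :
    2 * k + R ≤ n ∧
    (3 * (k : ℝ) + 2 * R + 1) * Real.log n ≤ (1 / 2) ^ k * ((n : ℝ) - 2 * k - R) / 2 := by
  have hnR : (2 : ℝ) ≤ n := by exact_mod_cast hn
  have hL : (0.69 : ℝ) ≤ Real.log n := by
    have h1 := Real.log_two_gt_d9
    have h2 : Real.log 2 ≤ Real.log n := Real.log_le_log (by norm_num) hnR
    linarith
  have h2k : (2 : ℝ) ≤ 2 ^ k := by
    calc (2 : ℝ) = 2 ^ 1 := by norm_num
      _ ≤ 2 ^ k := pow_le_pow_right₀ (by norm_num) hk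
  have h3 : 64 * 2 * B * 0.69 ≤ (n : ℝ) := by
    calc 64 * 2 * B * 0.69 ≤ 64 * 2 ^ k * B * Real.log n := by
          apply mul_le_mul _ hL (by norm_num) (by positivity)
          apply mul_le_mul_of_nonneg_right _ hB0
          linarith
      _ ≤ n := h
  have h4 : (2 * (k : ℝ) + R) ≤ n / 8 := by linarith
  constructor
  · have : ((2 * k + R : ℕ) : ℝ) ≤ n := by push_cast; linarith
    exact_mod_cast this
  · have ha : (1 / 2 : ℝ) ^ k * 2 ^ k = 1 := by rw [← mul_pow]; norm_num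
    have ha0 : (0 : ℝ) < (1 / 2) ^ k := by positivity
    have h5 : 64 * B * Real.log n ≤ (1 / 2) ^ k * n := by
      calc 64 * B * Real.log n = (1 / 2) ^ k * (64 * 2 ^ k * B * Real.log n) := by
            have : (1 / 2 : ℝ) ^ k * (64 * 2 ^ k * B * Real.log n) =
              ((1 / 2) ^ k * 2 ^ k) * (64 * B * Real.log n) := by ring
            rw [this, ha, one_mul]
        _ ≤ _ := mul_le_mul_of_nonneg_left h ha0.le
    have h6 : (3 * (k : ℝ) + 2 * R + 1) * Real.log n ≤ 22 * B * Real.log n :=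
      mul_le_mul_of_nonneg_right hB1 (by linarith)
    have h7 : (1 / 2 : ℝ) ^ k * (n * (7 / 8)) ≤ (1 / 2) ^ k * ((n : ℝ) - 2 * k - R) := by
      apply mul_le_mul_of_nonneg_left _ ha0.le
      linarith
    nlinarith

end Pool.Agent.N256.VZ
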