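import Mathlib

/-! # A covering principle for domination in Cartesian products

For every nonempty set `Q` of vertices of `G` and every dominating set `D` of `G □ H`, the vertices `h`
of `H` for which the fibre `D_h` meets `Q` or dominates `Q` form a dominating set of `H`.  Averaging over
random sets `Q` of density `1 / (2 k)` gives `|D| ≥ k γ(H)` if every set of fewer than `k` vertices of `G`
leaves many vertices undominated. -/

set_option autoImplicit false

namespace Pool.Agent.N256.VZ

open Finset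

/-- `D` is a dominating set of `G`. -/
def Dom {V : Type*} (G : SimpleGraph V) (D : Finset V) : Prop :=
  ∀ v, v ∈ D ∨ ∃ u ∈ D, G.Adj u v

/-- The domination number. -/
noncomputable def domNum {V : Type*} (G : SimpleGraph V) : ℕ :=
  sInf {k : ℕ | ∃ D : Finset V, D.card = k ∧ Dom G D}

open Classical in
/-- the vertices which are not dominated by `T` -/
noncomputable def und {V : Type*} [Fintype V] (G : SimpleGraph V) (T : Finset V) : Finset V :=
  univ.filter fun v => ¬ (v ∈ T ∨ ∃ u ∈ T, G.Adj u v)

lemma mem_und {V : Type*} [Fintype V] (G : SimpleGraph V) (T : Finset V) (v : V) :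
    v ∈ und G T ↔ ¬ (v ∈ T ∨ ∃ u ∈ T, G.Adj u v) := by
  simp [und]

section count

variable {V : Type*} [Fintype V] [DecidableEq V] {q : ℕ} (z : Fin q)

lemma card_avoid (U : Finset V) :
    ((univ.filter fun f : V → Fin q => ∀ v ∈ U, f v ≠ z).card : ℝ) =
      (q : ℝ) ^ Fintype.card V * (((q : ℝ) - 1) / q) ^ U.card := by
  have hq : 0 < q := Fin.pos z
  have h1 : (univ.filter fun f : V → Fin q => ∀ v ∈ U, f v ≠ z) =
      Fintype.piFinset (fun v => if v ∈ U then univ.erase z else univ) := by
    ext f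
    simp only [mem_filter, mem_univ, true_and, Fintype.mem_piFinset]
    constructor
    · intro h v
      by_cases hv : v ∈ U
      · simp [hv, h v hv]
      · simp [hv]
    · intro h v hv
      have := h v
      simp only [hv, if_true, mem_erase, mem_univ, and_true] at this
      exact this
  rw [h1, Fintype.card_piFinset]
  have h2 : ∀ v : V, ((if v ∈ U then univ.erase z else univ : Finset (Fin q)).card : ℝ) =
      (q : ℝ) * (if v ∈ U then ((q : ℝ) - 1) / q else 1) := by
    intro v
    have hq' : (q : ℝ) ≠ 0 := by positivity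
    by_cases hv : v ∈ U
    · simp only [hv, if_true]
      rw [card_erase_of_mem (mem_univ z), card_univ, Fintype.card_fin, Nat.cast_sub hq, Nat.cast_one]
      field_simp
    · simp [hv]
  push_cast
  rw [Finset.prod_congr rfl (fun v _ => h2 v), Finset.prod_mul_distrib, Finset.prod_const,
    Finset.prod_ite_mem, Finset.univ_inter, Finset.prod_const, card_univ]

lemma card_hit (v : V) :
    ((univ.filter fun f : V → Fin q => f v = z).card : ℝ) =
      (q : ℝ) ^ Fintype.card V / q := by
  have hq : 0 < q := Fin.pos z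
  have hq' : (q : ℝ) ≠ 0 := by positivity
  have h := card_avoid (V := V) z {v}
  have h3 : (univ.filter fun f : V → Fin q => f v = z).card +
      (univ.filter fun f : V → Fin q => ¬ f v = z).card = q ^ Fintype.card V := by
    rw [Finset.card_filter_add_card_filter_not, card_univ, Fintype.card_fun, Fintype.card_fin]
  have h4 : (univ.filter fun f : V → Fin q => ∀ w ∈ ({v} : Finset V), f w ≠ z) =
      (univ.filter fun f : V → Fin q => ¬ f v = z) := by
    ext f; simp
  rw [h4] at h
  have h5 : ((univ.filter fun f : V → Fin q => f v = z).card : ℝ) +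
      (univ.filter fun f : V → Fin q => ¬ f v = z).card = (q : ℝ) ^ Fintype.card V := by
    exact_mod_cast h3
  rw [h, card_singleton, pow_one] at h5
  have h6 : ((univ.filter fun f : V → Fin q => f v = z).card : ℝ) =
    (q : ℝ) ^ Fintype.card V - (q : ℝ) ^ Fintype.card V * (((q : ℝ) - 1) / q) := by linarith
  rw [h6]
  field_simp
  ring

/-- `f` marks the vertices `v ∉ S` with `f v = z`; the set `T` meets the marked set or dominates it -/
def Hit (G : SimpleGraph V) (S T : Finset V) (f : V → Fin q) : Prop :=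
  (∃ v ∈ T, v ∉ S ∧ f v = z) ∨ ∀ v, v ∉ S → f v = z → v ∈ T ∨ ∃ u ∈ T, G.Adj u v

open Classical in
lemma count_hit (G : SimpleGraph V) (S T : Finset V) :
    ((univ.filter fun f : V → Fin q => Hit z G S T f).card : ℝ) ≤
      (q : ℝ) ^ Fintype.card V *
        (((T \ S).card : ℝ) / q + (((q : ℝ) - 1) / q) ^ (und G T \ S).card) := by
  have h1 : (univ.filter fun f : V → Fin q => Hit z G S T f) ⊆
      ((T \ S).biUnion fun v => univ.filter fun f : V → Fin q => f v = z) ∪
      (univ.filter fun f : V → Fin q => ∀ v ∈ und G T \ S, f v ≠ z) := by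
    intro f hf
    rw [mem_filter] at hf
    rcases hf.2 with ⟨v, hv, hvS, hfv⟩ | h
    · apply mem_union_left
      rw [mem_biUnion]
      exact ⟨v, mem_sdiff.2 ⟨hv, hvS⟩, by simp [hfv]⟩
    · apply mem_union_right
      rw [mem_filter]
      refine ⟨mem_univ _, fun v hv hz => ?_⟩
      rw [mem_sdiff, mem_und] at hv
      exact hv.1 (h v hv.2 hz)
  have h2 := (card_le_card h1).trans (card_union_le _ _)
  have h3 : (((T \ S).biUnion fun v => univ.filter fun f : V → Fin q => f v = z).card : ℝ) ≤
      (T \ S).card * ((q : ℝ) ^ Fintype.card V / q) := by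
    have := Finset.card_biUnion_le (s := T \ S)
      (t := fun v => univ.filter fun f : V → Fin q => f v = z)
    calc (((T \ S).biUnion fun v => univ.filter fun f : V → Fin q => f v = z).card : ℝ)
        ≤ ((∑ v ∈ T \ S, (univ.filter fun f : V → Fin q => f v = z).card : ℕ) : ℝ) := by
          exact_mod_cast this
      _ = _ := by
          push_cast
          rw [Finset.sum_congr rfl (fun v _ => card_hit (V := V) z v), sum_const, nsmul_eq_mul]
  have h4 : ((univ.filter fun f : V → Fin q => Hit z G S T f).card : ℝ) ≤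
      (((T \ S).biUnion fun v => univ.filter fun f : V → Fin q => f v = z).card : ℝ) +
      (univ.filter fun f : V → Fin q => ∀ v ∈ und G T \ S, f v ≠ z).card := by
    exact_mod_cast h2
  rw [card_avoid] at h4
  refine h4.trans ?_
  have : (q : ℝ) ^ Fintype.card V *
        (((T \ S).card : ℝ) / q + (((q : ℝ) - 1) / q) ^ (und G T \ S).card) =
      (T \ S).card * ((q : ℝ) ^ Fintype.card V / q) +
        (q : ℝ) ^ Fintype.card V * (((q : ℝ) - 1) / q) ^ (und G T \ S).card := by ring
  rw [this]
  linarith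

end count

section fibre

variable {V W : Type*} [Fintype V] [Fintype W] [DecidableEq V] [DecidableEq W]

open Classical in
/-- the fibre of `D` over `h` -/
noncomputable def fib (D : Finset (V × W)) (h : W) : Finset V :=
  univ.filter fun v => (v, h) ∈ D

lemma mem_fib (D : Finset (V × W)) (h : W) (v : V) : v ∈ fib D h ↔ (v, h) ∈ D := by
  simp [fib]

lemma sum_fib (D : Finset (V × W)) : ∑ h : W, (fib D h).card = D.card := by
  classical
  rw [Finset.card_eq_sum_card_fiberwise (f := Prod.snd) (t := univ) (by simp)]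
  refine Finset.sum_congr rfl fun h _ => ?_
  refine Finset.card_bij (fun v _ => (v, h)) ?_ ?_ ?_
  · intro v hv
    rw [mem_fib] at hv
    simp [hv]
  · intro v _ v' _ hvv
    exact (Prod.mk.inj hvv).1
  · rintro ⟨v, h'⟩ hv
    simp only [mem_filter] at hv
    obtain ⟨h1, rfl⟩ := hv
    exact ⟨v, (mem_fib D _ v).2 h1, rfl⟩

open Classical in
/-- the covering principle -/
lemma cover (G : SimpleGraph V) (H : SimpleGraph W) (S : Finset V) {q : ℕ} (z : Fin q)
    (D : Finset (V × W))
    (hD : ∀ x : V × W, x.1 ∉ S → x ∈ D ∨ ∃ y ∈ D, (G.boxProd H).Adj y x)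
    (f : V → Fin q) (_ : ∃ v, v ∉ S ∧ f v = z) :
    Dom H (univ.filter fun h => Hit z G S (fib D h) f) := by
  intro h
  by_cases hh : Hit z G S (fib D h) f
  · left; simp [hh]
  right
  have h1 : ¬ (∃ v ∈ fib D h, v ∉ S ∧ f v = z) := fun h' => hh (Or.inl h')
  have h2 : ∃ v, v ∉ S ∧ f v = z ∧ ¬ (v ∈ fib D h ∨ ∃ u ∈ fib D h, G.Adj u v) := by
    by_contra hc
    refine hh (Or.inr fun v hv hz => ?_)
    by_contra hcc
    exact hc ⟨v, hv, hz, hcc⟩
  obtain ⟨v, hvS, hz, hnd⟩ := h2
  rcases hD (v, h) hvS with h3 | ⟨⟨u, h'⟩, hy, hadj⟩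
  · exact absurd (Or.inl ((mem_fib D h v).2 h3)) hnd
  · rw [SimpleGraph.boxProd_adj] at hadj
    simp only at hadj
    rcases hadj with ⟨ha, rfl⟩ | ⟨ha, rfl⟩
    · exact absurd (Or.inr ⟨u, (mem_fib D _ u).2 hy, ha⟩) hnd
    · refine ⟨h', ?_, ha⟩
      rw [mem_filter]
      exact ⟨mem_univ _, Or.inl ⟨u, (mem_fib D h' u).2 hy, hvS, hz⟩⟩

end fibre

/-- numerical condition -/
lemma num_delta (k : ℕ) (hk : 1 ≤ k) (c : ℝ) (r : ℕ) (hr : 2 * (k : ℝ) * c ≤ r) :
    (((2 * k : ℕ) : ℝ) - 1) / ((2 * k : ℕ) : ℝ) ≤ 1 ∧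
    0 ≤ (((2 * k : ℕ) : ℝ) - 1) / ((2 * k : ℕ) : ℝ) ∧
    ((((2 * k : ℕ) : ℝ) - 1) / ((2 * k : ℕ) : ℝ)) ^ r ≤ Real.exp (-c) := by
  have hk' : (1 : ℝ) ≤ k := by exact_mod_cast hk
  have hq : (0 : ℝ) < ((2 * k : ℕ) : ℝ) := by push_cast; linarith
  have h1 : (((2 * k : ℕ) : ℝ) - 1) / ((2 * k : ℕ) : ℝ) = 1 - 1 / (2 * k) := by
    push_cast
    field_simp
  have h0 : 0 ≤ (((2 * k : ℕ) : ℝ) - 1) / ((2 * k : ℕ) : ℝ) := by
    apply div_nonneg _ hq.le
    push_cast; linarith
  refine ⟨?_, h0, ?_⟩
  · rw [h1]
    have : 0 ≤ 1 / (2 * (k : ℝ)) := by positivity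
    linarith
  · have h2 : (((2 * k : ℕ) : ℝ) - 1) / ((2 * k : ℕ) : ℝ) ≤ Real.exp (-(1 / (2 * k))) := by
      rw [h1]
      have := Real.add_one_le_exp (-(1 / (2 * (k : ℝ))))
      linarith
    calc ((((2 * k : ℕ) : ℝ) - 1) / ((2 * k : ℕ) : ℝ)) ^ r
        ≤ (Real.exp (-(1 / (2 * k)))) ^ r := pow_le_pow_left₀ h0 h2 r
      _ = Real.exp (r * (-(1 / (2 * k)))) := by rw [← Real.exp_nat_mul]
      _ ≤ Real.exp (-c) := by
          apply Real.exp_le_exp.2
          have h3 : c ≤ r * (1 / (2 * k)) := by
            rw [mul_one_div, le_div_iff₀ (by positivity)]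
            linarith
          linarith

/-- **The averaging lemma (attachable form).** -/
theorem attach {V W : Type*} [Fintype V] [Fintype W] (G : SimpleGraph V) (H : SimpleGraph W)
    (S : Finset V) (k r : ℕ) (hk : 1 ≤ k)
    (hr : 4 * (k : ℝ) * ((((2 * k : ℕ) : ℝ) - 1) / ((2 * k : ℕ) : ℝ)) ^ r ≤ 1)
    (hund : ∀ T : Finset V, T.card < k → ∃ U : Finset V, r ≤ U.card ∧ U ⊆ und G T ∧ Disjoint U S)
    (m : ℕ) (hm : ∀ D : Finset W, Dom H D → m ≤ D.card)
    (D : Finset (V × W))
    (hD : ∀ x : V × W, x.1 ∉ S → x ∈ D ∨ ∃ y ∈ D, (G.boxProd H).Adj y x) :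
    k * m ≤ D.card := by
  classical
  have hk' : (1 : ℝ) ≤ k := by exact_mod_cast hk
  set q : ℕ := 2 * k with hq
  have hqpos : 0 < q := by omega
  have hqR : (0 : ℝ) < (q : ℝ) := by exact_mod_cast hqpos
  let z : Fin q := ⟨0, hqpos⟩
  set ρ : ℝ := ((q : ℝ) - 1) / q with hρ
  obtain ⟨hρ1, hρ0, -⟩ := num_delta k hk 0 0 (by simp)
  rw [← hq] at hρ1 hρ0
  rw [← hρ] at hρ1 hρ0
  set N : ℝ := (q : ℝ) ^ Fintype.card V with hN
  have hNpos : 0 < N := by positivity
  set δ : ℝ := ρ ^ r with hδ
  have hδ0 : 0 ≤ δ := pow_nonneg hρ0 r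
  have hund' : ∀ T : Finset V, T.card < k → r ≤ (und G T \ S).card := by
    intro T hT
    obtain ⟨U, h1, h2, h3⟩ := hund T hT
    refine h1.trans (card_le_card fun u hu => ?_)
    exact mem_sdiff.2 ⟨h2 hu, fun h => (Finset.disjoint_left.1 h3 hu) h⟩
  set F : Finset (V → Fin q) := univ.filter fun f => ∃ v, v ∉ S ∧ f v = z with hF
  have hFcard : N * (1 - δ) ≤ (F.card : ℝ) := by
    have h1 := card_avoid (V := V) z (univ \ S)
    have h2 : F.card + (univ.filter fun f : V → Fin q => ¬ ∃ v, v ∉ S ∧ f v = z).card =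
        q ^ Fintype.card V := by
      rw [hF, Finset.card_filter_add_card_filter_not, card_univ, Fintype.card_fun, Fintype.card_fin]
    have h3 : (univ.filter fun f : V → Fin q => ¬ ∃ v, v ∉ S ∧ f v = z) =
        (univ.filter fun f : V → Fin q => ∀ v ∈ univ \ S, f v ≠ z) := by
      ext f; simp
    rw [h3] at h2
    have h4 : (F.card : ℝ) + (univ.filter fun f : V → Fin q => ∀ v ∈ univ \ S, f v ≠ z).card = N := by
      rw [hN]; exact_mod_cast h2
    rw [h1] at h4
    have h5 : r ≤ (univ \ S).card := by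
      have := hund' ∅ (by rw [card_empty]; omega)
      refine this.trans (card_le_card (sdiff_subset_sdiff (subset_univ _) (le_refl _)))
    have h6 : ρ ^ (univ \ S).card ≤ δ := pow_le_pow_of_le_one hρ0 hρ1 h5
    have h7 : N * ρ ^ (univ \ S).card ≤ N * δ := mul_le_mul_of_nonneg_left h6 hNpos.le
    have h8 : (q : ℝ) ^ Fintype.card V * ((↑q - 1) / ↑q) ^ (univ \ S).card =
      N * ρ ^ (univ \ S).card := rfl
    rw [h8] at h4
    nlinarith
  have hδ4 : 4 * (k : ℝ) * δ ≤ 1 := hr
  have hδq : δ ≤ 1 / 4 := by nlinarith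
  have hFpos : 0 < (F.card : ℝ) := by
    refine lt_of_lt_of_le ?_ hFcard
    apply mul_pos hNpos
    linarith
  -- every marked function gives a dominating set
  have h1 : ∀ f ∈ F, m ≤ (univ.filter fun h : W => Hit z G S (fib D h) f).card := by
    intro f hf
    exact hm _ (cover G H S z D hD f (mem_filter.1 hf).2)
  have h2 : F.card * m ≤ ∑ h : W, (F.filter fun f => Hit z G S (fib D h) f).card := by
    calc F.card * m = ∑ _f ∈ F, m := by rw [sum_const, smul_eq_mul]
      _ ≤ ∑ f ∈ F, (univ.filter fun h : W => Hit z G S (fib D h) f).card := sum_le_sum h1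
      _ = ∑ f ∈ F, ∑ h : W, (if Hit z G S (fib D h) f then 1 else 0) := by
          refine sum_congr rfl fun f _ => ?_
          rw [card_filter]
      _ = ∑ h : W, ∑ f ∈ F, (if Hit z G S (fib D h) f then 1 else 0) := sum_comm
      _ = ∑ h : W, (F.filter fun f => Hit z G S (fib D h) f).card := by
          refine sum_congr rfl fun h _ => ?_
          rw [card_filter]
  have h3 : ∀ T : Finset V, (k : ℝ) * (F.filter fun f => Hit z G S T f).card ≤
      T.card * (F.card : ℝ) := by
    intro T
    have hle : ((F.filter fun f => Hit z G S T f).card : ℝ) ≤ F.card := by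
      exact_mod_cast card_le_card (filter_subset _ _)
    rcases Nat.lt_or_ge T.card k with hT | hT
    · rcases Nat.eq_zero_or_pos T.card with h0 | hpos
      · have hT0 : T = ∅ := card_eq_zero.1 h0
        have : (F.filter fun f => Hit z G S T f) = ∅ := by
          rw [filter_eq_empty_iff]
          intro f hf hh
          rcases hh with ⟨v, hv, _⟩ | hh
          · rw [hT0] at hv; simp at hv
          · obtain ⟨v, hv1, hv2⟩ := (mem_filter.1 hf).2
            have := hh v hv1 hv2
            rw [hT0] at this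
            simp at this
        rw [this]
        simp only [card_empty, Nat.cast_zero, mul_zero]
        positivity
      · have h4 : ((F.filter fun f => Hit z G S T f).card : ℝ) ≤
            N * ((T.card : ℝ) / q + δ) := by
          refine le_trans ?_ (le_trans (count_hit z G S T) ?_)
          · exact_mod_cast card_le_card (filter_subset_filter _ (subset_univ _))
          · apply mul_le_mul_of_nonneg_left _ hNpos.le
            apply add_le_add
            · apply div_le_div_of_nonneg_right _ hqR.le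
              exact_mod_cast card_le_card sdiff_subset
            · exact pow_le_pow_of_le_one hρ0 hρ1 (hund' T hT)
        have h5 : (k : ℝ) * (F.filter fun f => Hit z G S T f).card ≤
            k * (N * ((T.card : ℝ) / q + δ)) := mul_le_mul_of_nonneg_left h4 (by linarith)
        have h6 : (T.card : ℝ) * (N * (1 - δ)) ≤ T.card * (F.card : ℝ) :=
          mul_le_mul_of_nonneg_left hFcard (by positivity)
        have h7 : (k : ℝ) * (N * ((T.card : ℝ) / q + δ)) = N * (T.card / 2 + k * δ) := by
          rw [hq]; push_cast; field_simp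
        have hT1 : (1 : ℝ) ≤ T.card := by exact_mod_cast hpos
        have hTk : (T.card : ℝ) ≤ k := by exact_mod_cast hT.le
        have h8 : N * ((T.card : ℝ) / 2 + k * δ) ≤ N * (T.card * (1 - δ)) := by
          apply mul_le_mul_of_nonneg_left _ hNpos.le
          nlinarith [mul_le_mul_of_nonneg_right hTk hδ0]
        calc (k : ℝ) * (F.filter fun f => Hit z G S T f).card
            ≤ k * (N * ((T.card : ℝ) / q + δ)) := h5
          _ = N * (T.card / 2 + k * δ) := h7
          _ ≤ N * (T.card * (1 - δ)) := h8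
          _ = T.card * (N * (1 - δ)) := by ring
          _ ≤ _ := h6
    · have : (k : ℝ) ≤ T.card := by exact_mod_cast hT
      calc (k : ℝ) * (F.filter fun f => Hit z G S T f).card
          ≤ k * (F.card : ℝ) := mul_le_mul_of_nonneg_left hle (by linarith)
        _ ≤ T.card * (F.card : ℝ) := mul_le_mul_of_nonneg_right this (by positivity)
  have h4 : (k : ℝ) * (F.card * m) ≤ F.card * D.card := by
    have h5 : ((F.card * m : ℕ) : ℝ) ≤
        ((∑ h : W, (F.filter fun f => Hit z G S (fib D h) f).card : ℕ) : ℝ) := by exact_mod_cast h2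
    push_cast at h5
    calc (k : ℝ) * (F.card * m)
        ≤ k * ∑ h : W, ((F.filter fun f => Hit z G S (fib D h) f).card : ℝ) :=
          mul_le_mul_of_nonneg_left h5 (by linarith)
      _ = ∑ h : W, (k : ℝ) * ((F.filter fun f => Hit z G S (fib D h) f).card : ℝ) := by
          rw [mul_sum]
      _ ≤ ∑ h : W, ((fib D h).card : ℝ) * F.card := sum_le_sum fun h _ => h3 _
      _ = (∑ h : W, ((fib D h).card : ℝ)) * F.card := by rw [sum_mul]
      _ = F.card * D.card := by
          have := sum_fib D
          have h6 : (∑ h : W, ((fib D h).card : ℝ)) = D.card := by exact_mod_cast this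
          rw [h6]; ring
  have h5 : (k : ℝ) * m ≤ D.card := by
    have : (F.card : ℝ) * (k * m) ≤ F.card * D.card := by linarith
    exact le_of_mul_le_mul_left this hFpos
  exact_mod_cast h5

end Pool.Agent.N256.VZ
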